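import Pool.Agent.N204.HR.Stm
import Pool.Agent.Y121.AH.Fix

/-!
Project HR (helper204), task JF: the operator `J` on the cohomology with complex coefficients.
-/

set_option autoImplicit false
set_option linter.unusedSectionVars false

open CategoryTheory AlgebraicGeometry TensorProduct

universe u

namespace Pool.Agent.N595.HR

open Module Matrix
open Pool.Agent.H914 Pool.Agent.H914.VarClass Pool.Agent.H914.VarClass.Obj
  Pool.Agent.H914.WeilCohomology
open Pool.Agent.Y121.AH (HodgeTheory CW em IsHodge tmul_eq)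
open Pool.Agent.N996.BP (IsPHS dG dG_mul dG_one)
open Pool.Agent.N996.BP.Geo (cc lop tauT Fx lop_mul lop_map tr_lop lop_inv lop_hodge lop_eq lop_gr)
open Pool.Agent.N204.HR

section Sig

variable {k : Type u} [Field k] {𝒱 : VarClass k} {ops : CycleOps 𝒱} {T : HodgeTheory ops}
  {X Y : 𝒱.Obj}

variable (T) in
/-- The conjugation of the coefficients on the cohomology. -/
noncomputable def sg (Y : 𝒱.Obj) (x : (CW T).H Y) : (CW T).H Y := sig (tauT T) x

lemma Jop_eq (x : (CW T).H Y) : Jop T Y x = lop T Complex.I⁻¹ Y (sg T Y x) := rfl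

lemma sg_add (x y : (CW T).H Y) : sg T Y (x + y) = sg T Y x + sg T Y y := by
  have h : ∀ x y : ℂ ⊗[T.W.K] T.W.H Y,
      sig (tauT T) (x + y) = sig (tauT T) x + sig (tauT T) y := fun x y => map_add _ x y
  exact h x y

lemma sg_smul (c : (CW T).K) (x : (CW T).H Y) : sg T Y (c • x) = starC T c • sg T Y x := by
  have h : ∀ (c : ℂ) (x : ℂ ⊗[T.W.K] T.W.H Y),
      sig (tauT T) (c • x) = tauT T c • sig (tauT T) x := fun c x => sig_smul (tauT T) c x
  exact h c x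

lemma sg_mul (x y : (CW T).H Y) : sg T Y (x * y) = sg T Y x * sg T Y y := by
  have h : ∀ x y : ℂ ⊗[T.W.K] T.W.H Y,
      sig (tauT T) (x * y) = sig (tauT T) x * sig (tauT T) y := fun x y => sig_mul (tauT T) x y
  exact h x y

lemma sg_map (f : X ⟶ Y) (x : (CW T).H Y) : sg T X ((CW T).map f x) = (CW T).map f (sg T Y x) := by
  have h : ∀ x : ℂ ⊗[T.W.K] T.W.H Y, sig (tauT T) (mapBase ℂ (T.W.map f) x) =
      mapBase ℂ (T.W.map f) (sig (tauT T) x) := fun x => sig_map (tauT T) (T.W.map f) x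
  exact h x

lemma sg_gr {i : ℕ} {x : (CW T).H Y} (hx : x ∈ (CW T).gr Y i) : sg T Y x ∈ (CW T).gr Y i := by
  have hx' : (show ℂ ⊗[T.W.K] T.W.H Y from x) ∈ (T.W.gr Y i).baseChange ℂ := hx
  exact sig_gr (tauT T) hx'

lemma tauT_alg (r : T.W.K) : tauT T (algebraMap T.W.K ℂ r) = algebraMap T.W.K ℂ r :=
  (tauT T).commutes r

lemma sg_tr (x : (CW T).H Y) : (CW T).tr Y (sg T Y x) = starC T ((CW T).tr Y x) := by
  have h : ∀ x : ℂ ⊗[T.W.K] T.W.H Y, formBase ℂ (T.W.tr Y) (sig (tauT T) x) =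
      tauT T (formBase ℂ (T.W.tr Y) x) := by
    intro x
    refine tmul_induction (P := fun x => formBase ℂ (T.W.tr Y) (sig (tauT T) x) =
      tauT T (formBase ℂ (T.W.tr Y) x)) ?_ ?_ ?_ x
    · simp only [map_zero]
    · intro x y hx hy
      simp only [map_add, hx, hy]
    · intro l a
      rw [sig_tmul, formBase_tmul, formBase_tmul, map_mul, tauT_alg]
  exact h x

lemma sg_em (c : T.W.H Y) : sg T Y (em T.W ℂ c) = em T.W ℂ c := by
  have h : sig (tauT T) ((1 : ℂ) ⊗ₜ[T.W.K] c) = (1 : ℂ) ⊗ₜ[T.W.K] c := by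
    rw [sig_tmul, map_one]
  exact h

lemma sg_surj (x : (CW T).H Y) : ∃ y, sg T Y y = x := by
  have h : ∀ x : ℂ ⊗[T.W.K] T.W.H Y, sig (tauT T) (sig (tauT T).symm x) = x :=
    fun x => sig_symm (tauT T) x
  exact ⟨_, h x⟩

/-- The operators respect the degree. -/
lemma lop_gr' {t : ℂ} {i : ℕ} {x : (CW T).H X} (hx : x ∈ (CW T).gr X i) :
    lop T t X x ∈ (CW T).gr X i := by
  have hx' : x ∈ (T.W.gr X i).baseChange ℂ := hx
  refine base_induction (P := fun x : ℂ ⊗[T.W.K] T.W.H X => lop T t X x ∈ (CW T).gr X i)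
    ?_ ?_ ?_ hx'
  · exact (map_zero (lop T t X)).symm ▸ Submodule.zero_mem _
  · intro x y hx hy
    exact (map_add (lop T t X) x y).symm ▸ Submodule.add_mem _ hx hy
  · intro l a ha
    have h := tmul_eq (W := T.W) (L := ℂ) l a
    have h2 : lop T t X (show (CW T).H X from (l ⊗ₜ[T.W.K] a)) ∈ (CW T).gr X i := by
      rw [h, map_smul]
      exact Submodule.smul_mem _ _ (lop_gr ha)
    exact h2

lemma I_inv_ne : (Complex.I⁻¹ : ℂ) ≠ 0 := inv_ne_zero Complex.I_ne_zero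

end Sig

section Pol

variable {k : Type u} [Field k] {𝒱 : VarClass k} {ops : CycleOps 𝒱} {T : HodgeTheory ops}
  {X : 𝒱.Obj} {ψ : LinearMap.BilinForm T.W.K (T.W.H X)} {d : ℕ}

lemma form_sig (ψ : LinearMap.BilinForm T.W.K (T.W.H X)) (x y : ℂ ⊗[T.W.K] T.W.H X) :
    ψ.baseChange ℂ (sig (tauT T) x) (sig (tauT T) y) = star (ψ.baseChange ℂ x y) := by
  have hs : ∀ z : ℂ, star z = tauT T z := fun z => rfl
  refine tmul_induction (P := fun x => ψ.baseChange ℂ (sig (tauT T) x) (sig (tauT T) y) =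
    star (ψ.baseChange ℂ x y)) ?_ ?_ ?_ x
  · simp
  · intro a b ha hb
    simp only [map_add, LinearMap.add_apply, ha, hb, star_add]
  · intro l a
    refine tmul_induction (P := fun y => ψ.baseChange ℂ (sig (tauT T) (l ⊗ₜ[T.W.K] a))
      (sig (tauT T) y) = star (ψ.baseChange ℂ (l ⊗ₜ[T.W.K] a) y)) ?_ ?_ ?_ y
    · simp
    · intro b c hb hc
      simp only [map_add, hb, hc, star_add]
    · intro m b
      rw [sig_tmul, sig_tmul, LinearMap.BilinForm.baseChange_tmul,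
        LinearMap.BilinForm.baseChange_tmul, hs, Algebra.smul_def, Algebra.smul_def, map_mul,
        map_mul, tauT_alg]

lemma form_J (h : IsPHS (tauT T) (Fx T X) ψ d) (x y : ℂ ⊗[T.W.K] T.W.H X) :
    ψ.baseChange ℂ (dG h.int (fun k => Complex.I⁻¹ ^ k) (sig (tauT T) x))
      (dG h.int (fun k => Complex.I⁻¹ ^ k) (sig (tauT T) y)) = star (ψ.baseChange ℂ x y) := by
  rw [h.form_dG, ← Module.End.mul_apply, dG_mul]
  have h1 : (fun k : ℤ => Complex.I⁻¹ ^ (-k) * Complex.I⁻¹ ^ k) = fun _ => 1 := by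
    funext k
    rw [← zpow_add₀ I_inv_ne, neg_add_cancel, zpow_zero]
  rw [h1, dG_one, Module.End.one_apply, form_sig]

lemma form_pos (h : IsPHS (tauT T) (Fx T X) ψ d) (x : ℂ ⊗[T.W.K] T.W.H X) (hx : x ≠ 0) :
    ∃ r : ℝ, 0 < r ∧
      ψ.baseChange ℂ x (dG h.int (fun k => Complex.I⁻¹ ^ k) (sig (tauT T) x)) = r := by
  obtain ⟨ρ, h1, -, h2⟩ := h.exists_pos x
  refine ⟨ρ, h2 hx, ?_⟩
  rw [← h1, h.form_dG]
  congr 2
  have h3 : (fun k : ℤ => Complex.I⁻¹ ^ k) = fun k => Complex.I ^ (-k) := by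
    funext k
    rw [_root_.inv_zpow, _root_.zpow_neg]
  rw [h3]

end Pol

/-- **Task JF.** -/
theorem jf : S_JF.{u} := by
  intro k _ 𝒱 ops T
  refine ⟨fun Y x y => ?_, fun Y c x => ?_, fun Y x y => ?_, fun Y Z f x => ?_, fun Y x => ?_,
    fun Y i x hx => ?_, fun Y x => ?_, fun Y j c hc => ?_, fun X ψ d h => ⟨fun x y => ?_,
    fun x hx => ?_⟩⟩
  · rw [Jop_eq, sg_add, map_add, Jop_eq, Jop_eq]
  · rw [Jop_eq, sg_smul, map_smul, Jop_eq]
  · rw [Jop_eq, sg_mul, lop_mul I_inv_ne, Jop_eq, Jop_eq]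
  · rw [Jop_eq, sg_map, lop_map, Jop_eq]
  · rw [Jop_eq, tr_lop, sg_tr]
  · rw [Jop_eq]
    exact lop_gr' (sg_gr hx)
  · obtain ⟨y, hy⟩ := sg_surj (lop T (Complex.I⁻¹)⁻¹ Y x)
    exact ⟨y, by rw [Jop_eq, hy, lop_inv I_inv_ne]⟩
  · rw [Jop_eq, sg_em, lop_hodge hc]
  · exact form_J h x y
  · exact form_pos h x hx

end Pool.Agent.N595.HR
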